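import Pool.Agent.Helper21.FX.S
import Pool.Agent.Helper82.TM.FR
import Pool.Agent.Helper17.N9.N9F
import Pool.Agent.Helper55.FU.T

/-!
MP_c75db0, Plan W, the invariance items in the fused machine: row C, constants.
-/

set_option autoImplicit false
set_option exponentiation.threshold 100000
noncomputable section
namespace Pool.Agent.Helper21.FX

open Matrix Finset
open Pool.Agent.Helper86.C75 (Z)
open Pool.Agent.Helper86.CX (Cx andB psd1)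
open Pool.Agent.Helper86.CT (Mo KM)
open Pool.Agent.Helper90.KMO (UU UU_pos UUc_ne cz zv zv_p andB_t)
open Pool.Agent.Helper90.KMT (PT)
open Pool.Agent.Helper90.C75 (Vt avg)
open Pool.Agent.Helper62.TVM (V3m C9)
open Pool.Agent.Helper82.TST (Fr frR frS frK dtC adC nzC smC C9M C9M_sm)
open Pool.Agent.Helper82.FRD (jr ouR)
open Pool.Agent.Helper17.N9 (Kf KfM Tr Tl3 bsU Lc1 frU kE kNd fmJ OC1 OH1 r52 AI mI ef ndw lv3 RF PF)
open Pool.Agent.Helper91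
open Pool.Agent.Helper91.TM (AT TP lfT Sm Sz Sp Ev Nh zc tS vb xd ds SB)
open Pool.Agent.Helper91.TMK (TOK TW)
open Pool.Agent.Helper91.TMK.TST (HK)
open Pool.Agent.Helper91.FU
open Pool.Agent.Helper6.MONO (V3)
open Pool.Agent.Helper6.MONO.W2 (Mt hr J1 rfJ)

variable {t : ℕ → ℝ}

/-! ### a complex constant -/

theorem zc_dl (u v : ℤ) (i : ℕ) : zc (TM.dl u) (TM.dl v) i =
    if i = 0 then (u : ℂ) + v * Complex.I else 0 := by
  unfold TM.dl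
  show ((if i = 0 then u else 0 : ℤ) : ℂ) + ((if i = 0 then v else 0 : ℤ) : ℂ) * Complex.I = _
  split_ifs <;> simp

theorem Nh_dl (u v : ℤ) (d : ℕ) : Nh (zc (TM.dl u) (TM.dl v)) d =
    if d = 0 then ‖(u : ℂ) + v * Complex.I‖ else 0 := by
  unfold Nh
  split_ifs with hd
  · subst hd
    rw [Finset.sum_eq_single 0]
    · rw [zc_dl, if_pos (by norm_num)]
    · intro r _ hr
      rw [zc_dl, if_neg (by omega), norm_zero]
    · intro h
      exact absurd (mem_range.2 (by norm_num)) h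
  · refine Finset.sum_eq_zero fun r _ => ?_
    rw [zc_dl, if_neg (by omega), norm_zero]

theorem Ev_dl (u v : ℤ) : Ev (sS t) (zc (TM.dl u) (TM.dl v)) = (u : ℂ) + v * Complex.I := by
  unfold Ev
  rw [Finset.sum_eq_single 0]
  · have h0 : TM.mu (sS t) 0 = 1 := by
      unfold TM.mu
      have : TM.x0 0 = 0 ∧ TM.x1 0 = 0 ∧ TM.x2 0 = 0 := by decide
      rw [this.1, this.2.1, this.2.2]
      simp
    rw [h0, zc_dl, if_pos rfl]
    simp
  · intro i _ hi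
    rw [zc_dl, if_neg hi, zero_mul]
  · intro h
    exact absurd (mem_range.2 (by norm_num)) h

theorem Sz_dlo (u : ℤ) : Sz 301 (fun i => TM.dl u i + ov i) = u + (fO : ℤ) := by
  rw [TM.Sz_add, TM.Sz_dl, ← fO_eq]

theorem kZ1_eq (a b n : ℕ) : kZ1 a b n = ⟨a, b, n + 2 ^ 18 * 2 ^ 1120, Nat.ble n (2 ^ 62)⟩ := by
  have e62 : (2 : ℕ) ^ 62 = 4611686018427387904 := by norm_num
  have e : (2 : ℕ) ^ 18 * 2 ^ 1120 = 2 ^ 1138 := by rw [← pow_add]
  rw [e62, e]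
  unfold kZ1
  show (⟨a, b, n + _, Nat.ble n _⟩ : FP) = _
  congr 1

theorem kZ1_ok {f : ℂ} {u v : ℤ} {a b n : ℕ} (ha : (a : ℤ) = fO + u) (hb : (b : ℤ) = fO + v)
    (h1 : ‖2 ^ 31 * f - ((u : ℂ) + v * Complex.I)‖ ≤ 2) (hu : 2 ^ 17 * (|u| + |v|) ≤ n) :
    FV 1 t f (kZ1 a b n) := by
  rw [kZ1_eq]
  intro hk
  have hn : n ≤ 2 ^ 62 := Nat.le_of_ble_eq_true hk
  have hn' : (n : ℤ) ≤ 2 ^ 62 := by exact_mod_cast hn
  have hu0 := abs_nonneg u
  have hv0 := abs_nonneg v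
  refine ⟨TM.dl u, TM.dl v, fun k => if k = 0 then n else if k = 7 then 2 ^ 18 else 0,
    ⟨?_, ?_, ?_, TM.dl_sp _, TM.dl_sp _, ?_, ?_, ?_, ?_⟩, ?_⟩
  · rw [Sz_dlo]
    show ((a : ℕ) : ℤ) = _
    rw [ha]
    ring
  · rw [Sz_dlo]
    show ((b : ℕ) : ℤ) = _
    rw [hb]
    ring
  · show n + 2 ^ 18 * 2 ^ 1120 = _
    simp [Sm]
  · intro i
    unfold TM.dl
    split_ifs
    · push_cast
      linarith
    · norm_num
  · intro i
    unfold TM.dl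
    split_ifs
    · push_cast
      linarith
    · norm_num
  · intro d hd
    rw [Nh_dl]
    show 2 ^ 17 * (if d = 0 then ‖(u : ℂ) + v * Complex.I‖ else 0) ≤
      4 ^ d * ((if d = 0 then n else if d = 7 then 2 ^ 18 else 0 : ℕ) : ℝ)
    have h3 : (2 : ℝ) ^ 17 * (|(u : ℝ)| + |(v : ℝ)|) ≤ n := by exact_mod_cast hu
    have h4 : ‖(u : ℂ) + v * Complex.I‖ ≤ |(u : ℝ)| + |(v : ℝ)| := by
      refine (norm_add_le _ _).trans ?_
      rw [norm_mul, Complex.norm_I, mul_one, Complex.norm_intCast, Complex.norm_intCast]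
    by_cases h0 : d = 0
    · rw [if_pos h0, if_pos h0, h0, pow_zero, one_mul]
      linarith
    · rw [if_neg h0, if_neg h0, mul_zero]
      positivity
  · have e : Wt 8 (fun k => if k = 0 then n else if k = 7 then 2 ^ 18 else 0) =
        n + 4 ^ 7 * 2 ^ 18 := by
      unfold Wt
      simp [Finset.sum_range_succ]
    rw [e]
    have e3 : (2 : ℕ) ^ 62 + 4 ^ 7 * 2 ^ 18 ≤ 1 * 2 ^ 64 := by norm_num
    omega
  · rw [Ev_dl]
    have e3 : (((2 : ℕ) ^ 18 : ℕ) : ℝ) / 2 ^ 17 = 2 := by norm_num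
    show _ ≤ (((2 : ℕ) ^ 18 : ℕ) : ℝ) / 2 ^ 17
    rw [e3]
    exact h1

/-- the digit of an integer of the unit `2 ^ (-48)` -/
def zd : Z → ℤ
  | Z.p n => ((n / 2 ^ 17 : ℕ) : ℤ)
  | Z.m n => -((n / 2 ^ 17 : ℕ) : ℤ)

theorem fO_big : 2 ^ 48 ≤ fO := by decide +kernel

theorem zab_p (n : ℕ) : zab (Z.p n) = n := rfl
theorem zab_m (n : ℕ) : zab (Z.m n) = n := rfl
theorem zo_p (n : ℕ) : zo (Z.p n) = fO + n / 2 ^ 17 := by
  have e : Nat.shiftRight n 17 = n / 2 ^ 17 := Nat.shiftRight_eq_div_pow n 17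
  rw [← e]
  rfl
theorem zo_m (n : ℕ) : zo (Z.m n) = fO - n / 2 ^ 17 := by
  have e : Nat.shiftRight n 17 = n / 2 ^ 17 := Nat.shiftRight_eq_div_pow n 17
  rw [← e]
  rfl

theorem zo_z {x : Z} (h : zab x ≤ 2 ^ 62) : ((zo x : ℕ) : ℤ) = fO + zd x := by
  cases x with
  | p n =>
    rw [zo_p]
    show _ = (fO : ℤ) + ((n / 2 ^ 17 : ℕ) : ℤ)
    push_cast
    ring
  | m n =>
    have h1 : n ≤ 2 ^ 62 := h
    have h2 : n / 2 ^ 17 ≤ 2 ^ 48 := by
      rw [Nat.div_le_iff_le_mul_add_pred (by norm_num)]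
      have : (2 : ℕ) ^ 62 ≤ 2 ^ 17 * 2 ^ 48 := by norm_num
      omega
    have h3 := fO_big
    rw [zo_m, Nat.cast_sub (h2.trans h3)]
    show _ = (fO : ℤ) + -((n / 2 ^ 17 : ℕ) : ℤ)
    ring

theorem zd_abs (x : Z) : 2 ^ 17 * |zd x| ≤ (zab x : ℤ) := by
  have key : ∀ n : ℕ, 2 ^ 17 * ((n / 2 ^ 17 : ℕ) : ℤ) ≤ n := by
    intro n
    have := Nat.mul_div_le n (2 ^ 17)
    exact_mod_cast this
  cases x with
  | p n =>
    show 2 ^ 17 * |((n / 2 ^ 17 : ℕ) : ℤ)| ≤ (n : ℤ)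
    rw [abs_of_nonneg (Int.natCast_nonneg _)]
    exact key n
  | m n =>
    show 2 ^ 17 * |-((n / 2 ^ 17 : ℕ) : ℤ)| ≤ (n : ℤ)
    rw [abs_neg, abs_of_nonneg (Int.natCast_nonneg _)]
    exact key n

theorem zd_err (x : Z) : |((zv x : ℤ) : ℝ) / 2 ^ 17 - ((zd x : ℤ) : ℝ)| ≤ 1 := by
  have key : ∀ n : ℕ, |(n : ℝ) / 2 ^ 17 - ((n / 2 ^ 17 : ℕ) : ℝ)| ≤ 1 := by
    intro n
    have h1 : n / 2 ^ 17 * 2 ^ 17 ≤ n := Nat.div_mul_le_self _ _
    have h2 : n < (n / 2 ^ 17 + 1) * 2 ^ 17 := by omega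
    have h1' : ((n / 2 ^ 17 : ℕ) : ℝ) * 2 ^ 17 ≤ n := by exact_mod_cast h1
    have h2' : (n : ℝ) < (((n / 2 ^ 17 : ℕ) : ℝ) + 1) * 2 ^ 17 := by exact_mod_cast h2
    rw [abs_le]
    constructor
    · have : ((n / 2 ^ 17 : ℕ) : ℝ) ≤ n / 2 ^ 17 := by
        rw [le_div_iff₀ (by positivity)]
        exact h1'
      linarith
    · have : (n : ℝ) / 2 ^ 17 ≤ ((n / 2 ^ 17 : ℕ) : ℝ) + 1 := by
        rw [div_le_iff₀ (by positivity)]
        exact h2'.le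
      linarith
  cases x with
  | p n =>
    have h := key n
    show |((((n : ℕ) : ℤ) : ℤ) : ℝ) / 2 ^ 17 - ((((n / 2 ^ 17 : ℕ) : ℤ) : ℤ) : ℝ)| ≤ 1
    rw [Int.cast_natCast, Int.cast_natCast]
    exact h
  | m n =>
    have h := key n
    show |((-((n : ℕ) : ℤ) : ℤ) : ℝ) / 2 ^ 17 - ((-((n / 2 ^ 17 : ℕ) : ℤ) : ℤ) : ℝ)| ≤ 1
    rw [Int.cast_neg, Int.cast_neg, Int.cast_natCast, Int.cast_natCast, ← abs_neg]
    refine (le_of_eq ?_).trans h
    congr 1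
    ring

/-- A COMPLEX CONSTANT -/
theorem kZ_ok {f : ℂ} {x : Cx} (h : (UU : ℂ) * f = cz x) : FV 1 t f (kZ x) := by
  intro hk
  have hn : zab x.re + zab x.im ≤ 2 ^ 62 := by
    have h1 : (kZ1 (zo x.re) (zo x.im) (zab x.re + zab x.im)).k = true := hk
    rw [kZ1_eq] at h1
    exact Nat.le_of_ble_eq_true h1
  refine kZ1_ok (u := zd x.re) (v := zd x.im) (zo_z (by omega)) (zo_z (by omega)) ?_ ?_ hk
  · have e1 : (2 : ℂ) ^ 31 * f = cz x / 2 ^ 17 := by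
      rw [← h]
      have e2 : (UU : ℂ) = 2 ^ 48 := by
        unfold UU
        norm_num
      rw [e2]
      ring
    have e2 : cz x = ((zv x.re : ℝ) : ℂ) + ((zv x.im : ℝ) : ℂ) * Complex.I := by
      apply Complex.ext <;> simp [cz]
    have e3 : (2 : ℂ) ^ 31 * f - (((zd x.re : ℤ) : ℂ) + ((zd x.im : ℤ) : ℂ) * Complex.I) =
        ((((zv x.re : ℤ) : ℝ) / 2 ^ 17 - ((zd x.re : ℤ) : ℝ) : ℝ) : ℂ) +
        ((((zv x.im : ℤ) : ℝ) / 2 ^ 17 - ((zd x.im : ℤ) : ℝ) : ℝ) : ℂ) * Complex.I := by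
      rw [e1, e2]
      push_cast
      ring
    rw [e3]
    refine (norm_add_le _ _).trans ?_
    rw [norm_mul, Complex.norm_I, mul_one, Complex.norm_real, Complex.norm_real,
      Real.norm_eq_abs, Real.norm_eq_abs]
    have := zd_err x.re
    have := zd_err x.im
    linarith
  · have := zd_abs x.re
    have := zd_abs x.im
    show 2 ^ 17 * (|zd x.re| + |zd x.im|) ≤ ((zab x.re + zab x.im : ℕ) : ℤ)
    push_cast
    linarith

theorem cF_ok {M : Mt} {c : C9} (h : (UU : ℂ) • M = C9M c) : MO t M (cF c) := by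
  have e : ∀ i j, (UU : ℂ) * M i j = C9M c i j := by
    intro i j
    have := congrFun (congrFun h i) j
    exact this
  exact ⟨kZ_ok (e 0 0), kZ_ok (e 0 1), kZ_ok (e 0 2), kZ_ok (e 1 0), kZ_ok (e 1 1),
    kZ_ok (e 1 2), kZ_ok (e 2 0), kZ_ok (e 2 1), kZ_ok (e 2 2)⟩

theorem srA_ok (e : ℕ) (f : Fr) : MO t ((2 ^ e : ℂ) • frR f) (srA e f) := by
  refine cF_ok ?_
  have e1 : Nat.shiftLeft f.s e = f.s * 2 ^ e := Nat.shiftLeft_eq _ _
  rw [C9M_sm, e1]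
  unfold frR
  rw [smul_smul, smul_smul]
  congr 1
  have := UUc_ne
  push_cast
  field_simp

theorem tgB_ok (g : Fr) : MO t (frS g) (tgB g) := by
  refine cF_ok ?_
  rw [C9M_sm]
  unfold frS
  rw [smul_smul, mul_div_cancel₀ _ UUc_ne]

theorem c4_eq {e : ℕ} (he : e ≤ 22) :
    Nat.shiftRight 17592186044416 (Nat.add e e) * 4 ^ e = 2 ^ 44 := by
  have e1 : Nat.shiftRight 17592186044416 (Nat.add e e) = 17592186044416 / 2 ^ (e + e) :=
    Nat.shiftRight_eq_div_pow _ _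
  have e2 : (4 : ℕ) ^ e = 2 ^ (e + e) := by
    have : (4 : ℕ) = 2 ^ 2 := by norm_num
    rw [this, ← pow_mul]
    congr 1
    omega
  have e3 : (17592186044416 : ℕ) = 2 ^ 44 := by norm_num
  rw [e1, e2, e3]
  exact Nat.div_mul_cancel (pow_dvd_pow 2 (by omega))

theorem rsF_ok (hP : PT 3 t) {e : ℕ} (he : e ≤ 22) {r : ℝ} {R : Mo TP}
    (h : TOK 3 lfT t (r : ℂ) R) : FV 1 t ((r / 4 ^ e / 16 : ℝ) : ℂ) (rsF e R) := by
  have h1 : TOK 3 lfT t (1 / (16 * 4 ^ e) : ℂ) (c4 e) := by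
    refine TMK.TOK.cst' TM.AT_ok hP ?_
    have e2 : (UU : ℂ) = 2 ^ 48 := by
      unfold UU
      norm_num
    have e3 := c4_eq he
    have e4 : ((Nat.shiftRight 17592186044416 (Nat.add e e) : ℕ) : ℂ) * 4 ^ e = 2 ^ 44 := by
      exact_mod_cast e3
    have e5 : (2 : ℂ) ^ 48 = 16 * 2 ^ 44 := by norm_num
    rw [e2, e5, ← e4]
    have p : (4 : ℂ) ^ e ≠ 0 := pow_ne_zero _ (by norm_num)
    field_simp
  have h2 := TMK.TOK.mul TM.AT_ok hP h1 h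
  refine FV_to hP (h2.congr ?_)
  push_cast
  ring

end Pool.Agent.Helper21.FX
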