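import Pool.Agent.Helper21.FX.S
import Pool.Agent.Helper82.TM.FR
import Pool.Agent.Helper17.N9.N9F
import Pool.Agent.Helper55.FU.T
import Pool.Agent.Helper91.FU.RA
import Pool.Agent.Helper60.FU.RowR

/-!
MP_c75db0, Plan W, the invariance items in the fused machine: row M, vectors and matrices.
-/

set_option autoImplicit false
noncomputable section
namespace Pool.Agent.Helper21.FX

open Matrix Finset
open Pool.Agent.Helper86.C75 (Z)
open Pool.Agent.Helper86.CX (Cx andB psd1)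
open Pool.Agent.Helper86.CT (Mo KM)
open Pool.Agent.Helper90.KMO (UU UU_pos UUc_ne cz zv zv_p andB_t)
open Pool.Agent.Helper90.KMT (PT)
open Pool.Agent.Helper90.C75 (Vt avg)
open Pool.Agent.Helper62.TVM (V3m C9)
open Pool.Agent.Helper82.TST (Fr frR frS frK dtC adC nzC smC C9M)
open Pool.Agent.Helper82.FRD (jr ouR)
open Pool.Agent.Helper17.N9 (Kf KfM Tr Tl3 bsU Lc1 frU kE kNd fmJ OC1 OH1 r52 AI mI ef ndw lv3 RF PF)
open Pool.Agent.Helper91
open Pool.Agent.Helper91.TM (AT TP lfT Sm Sz Sp Ev Nh zc tS vb xd ds SB)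
open Pool.Agent.Helper91.TMK (TOK TW)
open Pool.Agent.Helper91.TMK.TST (HK)
open Pool.Agent.Helper91.FU
open Pool.Agent.Helper6.MONO (V3)
open Pool.Agent.Helper6.MONO.W2 (Mt hr J1 rfJ)

variable {t : ℕ → ℝ}

/-! ### real part -/

theorem zc_re (p q : ℕ → ℤ) (i : ℕ) : (zc p q i).re = p i := by
  unfold zc
  simp

theorem Ev_re (s : ℕ → ℝ) (p q : ℕ → ℤ) : Ev s (zc p fun _ => 0) = ((Ev s (zc p q)).re : ℂ) := by
  unfold Ev
  rw [Complex.re_sum]
  push_cast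
  refine Finset.sum_congr rfl fun i _ => ?_
  rw [Complex.re_mul_ofReal, zc_re]
  unfold zc
  push_cast
  ring

theorem Nh_re (p q : ℕ → ℤ) (d : ℕ) : Nh (zc p fun _ => 0) d ≤ Nh (zc p q) d := by
  unfold Nh
  refine Finset.sum_le_sum fun r _ => ?_
  have e : zc p (fun _ => 0) (43 * d + r) = (((zc p q (43 * d + r)).re : ℝ) : ℂ) := by
    rw [zc_re]
    unfold zc
    push_cast
    ring
  rw [e, Complex.norm_real]
  exact Complex.abs_re_le_norm _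

theorem reP_ok {c : ℕ} {r : ℝ} {x : FP} (h : FV c t (r : ℂ) x) : FV c t (r : ℂ) (reP x) := by
  intro hk
  obtain ⟨p, q, n, h1, h2⟩ := h hk
  refine ⟨p, fun _ => 0, n, ⟨h1.a, ?_, h1.d, h1.sp, fun _ _ => rfl, h1.bp, fun i => ?_,
    fun d hd => ?_, h1.w⟩, ?_⟩
  · show (fO : ℤ) = _
    rw [fO_eq]
    exact TM.Sz_congr fun i _ => (zero_add _).symm
  · rw [abs_zero]
    positivity
  · refine le_trans ?_ (h1.h d hd)
    exact mul_le_mul_of_nonneg_left (Nh_re p q d) (by positivity)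
  · refine le_trans ?_ h2
    rw [Ev_re _ p q]
    have e : (2 : ℂ) ^ 31 * (r : ℂ) - ((Ev (sS t) (zc p q)).re : ℂ) =
        ((((2 : ℂ) ^ 31 * (r : ℂ) - Ev (sS t) (zc p q)).re : ℝ) : ℂ) := by
      have e1 : (2 : ℂ) ^ 31 * (r : ℂ) = ((2 ^ 31 * r : ℝ) : ℂ) := by push_cast; ring
      rw [e1, Complex.sub_re, Complex.ofReal_re, Complex.ofReal_sub]
    rw [e, Complex.norm_real]
    exact Complex.abs_re_le_norm _

/-! ### from the Taylor machine -/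

theorem f3V_ok (hP : PT 3 t) {v : V3} {V : V3m TP} (h : TW 3 lfT t v V) : VO t v (f3V V) :=
  ⟨FV_to hP h.a, FV_to hP h.b, FV_to hP h.c⟩

theorem real_of {K : Mt} (h : K.IsHermitian) (i : Fin 3) : (((K i i).re : ℝ) : ℂ) = K i i :=
  Complex.conj_eq_iff_re.1 (h.apply i i)

theorem k6V_ok (hP : PT 3 t) {K : Mt} {M : KM TP} (h : HK 3 lfT t K M) : KO t K (k6V M) := by
  have hh : K.IsHermitian := by
    ext i j
    rw [Matrix.conjTranspose_apply, h.hm i j, star_star]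
  have d : ∀ {i : Fin 3} {m : Mo TP}, TOK 3 lfT t (K i i) m → FV 1 t (K i i) (reP (toF m)) := by
    intro i m hm
    rw [← real_of hh i] at hm ⊢
    exact reP_ok (FV_to hP hm)
  exact ⟨d h.a, d h.b, d h.c, FV_to hP h.x, FV_to hP h.y, FV_to hP h.w, hh⟩

/-! ### products -/

section

variable {f g h f' g' h' : ℂ} {x y z x' y' z' : FP}

theorem RV_dt3 (hP : PT 3 t) (hx : FV 1 t f x) (hy : FV 1 t g y) (hz : FV 1 t h z)
    (hx' : FV 1 t f' x') (hy' : FV 1 t g' y') (hz' : FV 1 t h' z') :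
    RV 3 t (f * f' + g * g' + h * h') (dt3 x y z x' y' z') :=
  ((RV.mul hP hx hx' (by norm_num) (by norm_num)).add
    (RV.mul hP hy hy' (by norm_num) (by norm_num))).add
    (RV.mul hP hz hz' (by norm_num) (by norm_num))

theorem FV_dt3 (hP : PT 3 t) (hx : FV 1 t f x) (hy : FV 1 t g y) (hz : FV 1 t h z)
    (hx' : FV 1 t f' x') (hy' : FV 1 t g' y') (hz' : FV 1 t h' z') :
    FV 1 t (f * f' + g * g' + h * h') (rndR (dt3 x y z x' y' z')) :=
  FV.rnd hP (RV_dt3 hP hx hy hz hx' hy' hz') (by norm_num)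

/-- `r u + y v + z w` -/
theorem FV_dtS (hP : PT 3 t) (hx : FV 1 t f x) (hy : FV 1 t g y) (hz : FV 1 t h z)
    (hx' : FV 1 t f' x') (hy' : FV 1 t g' y') (hz' : FV 1 t h' z') :
    FV 1 t (f * f' + g * g' + h * h') (dtS x x' y y' z z') :=
  FV.rnd hP (((RV.muls hP hx hx' (by norm_num) (by norm_num)).add
    (RV.mul hP hy hy' (by norm_num) (by norm_num))).add
    (RV.mul hP hz hz' (by norm_num) (by norm_num))) (by norm_num)

end

theorem mv_ok (hP : PT 3 t) {M : Mt} {X : F9} (hM : MO t M X) {v : V3} {x : F3} (hv : VO t v x) :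
    VO t (M.mulVec v) (mvF X x) := by
  have e : ∀ i, (M.mulVec v) i = M i 0 * v 0 + M i 1 * v 1 + M i 2 * v 2 := by
    intro i
    simp [Matrix.mulVec, dotProduct, Fin.sum_univ_three]
  refine ⟨?_, ?_, ?_⟩
  · rw [e]
    exact FV_dt3 hP hM.a hM.b hM.c hv.a hv.b hv.c
  · rw [e]
    exact FV_dt3 hP hM.d hM.e hM.f hv.a hv.b hv.c
  · rw [e]
    exact FV_dt3 hP hM.g hM.h hM.i hv.a hv.b hv.c

theorem mm_ok (hP : PT 3 t) {M N : Mt} {X Y : F9} (hM : MO t M X) (hN : MO t N Y) :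
    MO t (M * N) (mm X Y) := by
  have e : ∀ i j, (M * N) i j = M i 0 * N 0 j + M i 1 * N 1 j + M i 2 * N 2 j := by
    intro i j
    simp [Matrix.mul_apply, Fin.sum_univ_three]
  refine ⟨?_, ?_, ?_, ?_, ?_, ?_, ?_, ?_, ?_⟩
  · rw [e]
    exact FV_dt3 hP hM.a hM.b hM.c hN.a hN.d hN.g
  · rw [e]
    exact FV_dt3 hP hM.a hM.b hM.c hN.b hN.e hN.h
  · rw [e]
    exact FV_dt3 hP hM.a hM.b hM.c hN.c hN.f hN.i
  · rw [e]
    exact FV_dt3 hP hM.d hM.e hM.f hN.a hN.d hN.g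
  · rw [e]
    exact FV_dt3 hP hM.d hM.e hM.f hN.b hN.e hN.h
  · rw [e]
    exact FV_dt3 hP hM.d hM.e hM.f hN.c hN.f hN.i
  · rw [e]
    exact FV_dt3 hP hM.g hM.h hM.i hN.a hN.d hN.g
  · rw [e]
    exact FV_dt3 hP hM.g hM.h hM.i hN.b hN.e hN.h
  · rw [e]
    exact FV_dt3 hP hM.g hM.h hM.i hN.c hN.f hN.i

theorem kv_ok (hP : PT 3 t) {K V : Mt} {X : K6} {Y : F9} (hK : KO t K X) (hV : MO t V Y) :
    MO t (K * V) (kv X Y) := by
  have e : ∀ i j, (K * V) i j = K i 0 * V 0 j + K i 1 * V 1 j + K i 2 * V 2 j := by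
    intro i j
    simp [Matrix.mul_apply, Fin.sum_univ_three]
  have h10 : FV 1 t (K 1 0) (cjF X.x) := by
    rw [← hK.hm.apply 1 0]
    exact hK.x.cj (by norm_num)
  have h20 : FV 1 t (K 2 0) (cjF X.y) := by
    rw [← hK.hm.apply 2 0]
    exact hK.y.cj (by norm_num)
  have h21 : FV 1 t (K 2 1) (cjF X.w) := by
    rw [← hK.hm.apply 2 1]
    exact hK.w.cj (by norm_num)
  have e0 : ∀ j, (K * V) 0 j = V 0 j * K 0 0 + K 0 1 * V 1 j + K 0 2 * V 2 j := by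
    intro j
    rw [e]
    ring
  have e1 : ∀ j, (K * V) 1 j = V 1 j * K 1 1 + K 1 0 * V 0 j + K 1 2 * V 2 j := by
    intro j
    rw [e]
    ring
  have e2 : ∀ j, (K * V) 2 j = V 2 j * K 2 2 + K 2 0 * V 0 j + K 2 1 * V 1 j := by
    intro j
    rw [e]
    ring
  refine ⟨?_, ?_, ?_, ?_, ?_, ?_, ?_, ?_, ?_⟩
  · rw [e0]
    exact FV_dtS hP hV.a hK.x hK.y hK.a hV.d hV.g
  · rw [e0]
    exact FV_dtS hP hV.b hK.x hK.y hK.a hV.e hV.h
  · rw [e0]
    exact FV_dtS hP hV.c hK.x hK.y hK.a hV.f hV.i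
  · rw [e1]
    exact FV_dtS hP hV.d h10 hK.w hK.b hV.a hV.g
  · rw [e1]
    exact FV_dtS hP hV.e h10 hK.w hK.b hV.b hV.h
  · rw [e1]
    exact FV_dtS hP hV.f h10 hK.w hK.b hV.c hV.i
  · rw [e2]
    exact FV_dtS hP hV.g h20 h21 hK.c hV.a hV.d
  · rw [e2]
    exact FV_dtS hP hV.h h20 h21 hK.c hV.b hV.e
  · rw [e2]
    exact FV_dtS hP hV.i h20 h21 hK.c hV.c hV.f

theorem vq_ok (hP : PT 3 t) {V Q : Mt} {X Y : F9} (hV : MO t V X) (hQ : MO t Q Y) :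
    HO 3 t (Vᴴ * Q) (vq (cj9 X) Y) := by
  have e : ∀ i j, (Vᴴ * Q) i j = star (V 0 i) * Q 0 j + star (V 1 i) * Q 1 j +
      star (V 2 i) * Q 2 j := by
    intro i j
    simp [Matrix.mul_apply, Fin.sum_univ_three]
  have c : ∀ {f : ℂ} {x : FP}, FV 1 t f x → FV 1 t (star f) (cjF x) := fun h => h.cj (by norm_num)
  refine ⟨?_, ?_, ?_, ?_, ?_, ?_⟩
  · rw [e]
    exact RV_dt3 hP (c hV.a) (c hV.d) (c hV.g) hQ.a hQ.d hQ.g
  · rw [e]
    exact RV_dt3 hP (c hV.b) (c hV.e) (c hV.h) hQ.b hQ.e hQ.h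
  · rw [e]
    exact RV_dt3 hP (c hV.c) (c hV.f) (c hV.i) hQ.c hQ.f hQ.i
  · rw [e]
    exact RV_dt3 hP (c hV.a) (c hV.d) (c hV.g) hQ.b hQ.e hQ.h
  · rw [e]
    exact RV_dt3 hP (c hV.a) (c hV.d) (c hV.g) hQ.c hQ.f hQ.i
  · rw [e]
    exact RV_dt3 hP (c hV.b) (c hV.e) (c hV.h) hQ.c hQ.f hQ.i

theorem ad6_ok {c c' : ℕ} {F G : Mt} {X Y : H6} (hF : HO c t F X) (hG : HO c' t G Y) :
    HO (c + c') t (F + G) (ad6 X Y) :=
  ⟨hF.a.add hG.a, hF.b.add hG.b, hF.c.add hG.c, hF.x.add hG.x, hF.y.add hG.y, hF.w.add hG.w⟩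

theorem rkF_ok (hP : PT 3 t) {K : Mt} {X : K6} (hK : KO t K X) {r : ℝ} {x : FP}
    (hr : FV 1 t (r : ℂ) x) : KO t ((r : ℂ) • K) (rkF X x) := by
  have m : ∀ {i j : Fin 3} {z : FP}, FV 1 t (K i j) z →
      FV 1 t (((r : ℂ) • K) i j) (rndR (mulS z x)) := by
    intro i j z hz
    refine FV.congr (FV.rnd hP (RV.muls hP hz hr (by norm_num) (by norm_num)) (by norm_num)) ?_
    show K i j * (r : ℂ) = (r : ℂ) * K i j
    ring
  have hh : ((r : ℂ) • K).IsHermitian := by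
    ext i j
    rw [Matrix.conjTranspose_apply]
    show star ((r : ℂ) * K j i) = (r : ℂ) * K i j
    rw [star_mul', hK.hm.apply i j]
    have : star (r : ℂ) = (r : ℂ) := Complex.conj_ofReal r
    rw [this]
  have d : ∀ {i : Fin 3} {z : FP}, FV 1 t (K i i) z →
      FV 1 t (((r : ℂ) • K) i i) (reP (rndR (mulS z x))) := by
    intro i z hz
    have h1 := m hz
    rw [← real_of hh i] at h1 ⊢
    exact reP_ok h1
  exact ⟨d hK.a, d hK.b, d hK.c, m hK.x, m hK.y, m hK.w, hh⟩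

end Pool.Agent.Helper21.FX
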